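import Pool.Agent.J6H44.UC.Key

/-! General unions of collisions of fat points with arbitrary multiplicities. -/

set_option autoImplicit false

namespace Pool.Agent.J6H44.UC

open Polynomial Pool.Agent.H932R2 Pool.Agent.H932R3
open Pool.Agent.Y939.SC (par)

universe u v

/-- the number of points of multiplicity larger than `t` -/
def lm {r : ℕ} (m : Fin r → ℕ) (t : ℕ) : ℕ := (Finset.univ.filter fun j => t < m j).card

theorem lm_anti {r : ℕ} (m : Fin r → ℕ) : Antitone (lm m) := by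
  intro a b h
  apply Finset.card_le_card
  intro j hj
  rw [Finset.mem_filter] at hj ⊢
  exact ⟨hj.1, lt_of_le_of_lt h hj.2⟩

theorem lm_le {r : ℕ} (m : Fin r → ℕ) (t : ℕ) : lm m t ≤ r := by
  refine (Finset.card_le_univ _).trans ?_
  rw [Fintype.card_fin]

theorem ex_lm {r : ℕ} (m : Fin r → ℕ) : ex (∑ j, m j) (lm m) = fun k => ∑ j, (m j - k) := by
  funext k
  unfold ex lm
  simp_rw [Finset.card_filter]
  rw [Finset.sum_comm]
  refine Finset.sum_congr rfl fun j _ => ?_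
  rw [← Finset.card_filter]
  have h1 : m j ≤ ∑ j, m j :=
    Finset.single_le_sum (f := m) (fun _ _ => Nat.zero_le _) (Finset.mem_univ j)
  have h2 : (Finset.Ico k (∑ j, m j)).filter (fun t => t < m j) = Finset.Ico k (m j) := by
    ext t
    rw [Finset.mem_filter, Finset.mem_Ico, Finset.mem_Ico]
    omega
  rw [h2, Nat.card_Ico]

/-- collisions of points of the same multiplicity -/
theorem MI_equal {K : Type v} [Field K] (r m : ℕ) (c : K) (q : K[X]) :
    MI c q (fun k => ∑ _j : Fin r, (m - k)) = Ideal.span {X - C q, C ((X - C c) ^ r)} ^ m := by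
  have h0 : (fun k => ∑ _j : Fin r, (m - k)) = ex m (fun _ => r) := by
    funext k
    unfold ex
    rw [Finset.sum_const, Finset.sum_const, Nat.card_Ico, Finset.card_univ, Fintype.card_fin,
      smul_eq_mul, smul_eq_mul, mul_comm]
  have h1 : ∏ t ∈ Finset.range m, (Ideal.span {X - C q, C ((X - C c) ^ (fun _ => r) t)} :
      Ideal K[X][X]) = Ideal.span {X - C q, C ((X - C c) ^ r)} ^ m := by
    rw [Finset.prod_const, Finset.card_range]
  rw [h0, ← h1]
  exact le_antisymm (MI_le_prod c q (fun _ => r) m)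
    (prod_le_MI c q (lam := fun _ => r) (fun _ _ _ => le_rfl) m)

section arith
variable {ι : Type} [Fintype ι]

/-- the numerical condition -/
def Cond (n M d : ℕ) : Prop :=
  (9 ≤ n ∧ Real.sqrt (n : ℝ) * d < M) ∨ (9 < n ∧ Real.sqrt (n : ℝ) * d ≤ M)

theorem Cond.nine {n M d : ℕ} (h : Cond n M d) : 9 ≤ n := by
  rcases h with h | h
  · exact h.1
  · exact h.1.le

theorem Cond.le {n M d : ℕ} (h : Cond n M d) : Real.sqrt (n : ℝ) * d ≤ M := by
  rcases h with h | h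
  · exact h.2.le
  · exact h.2

theorem Cond.bdd {n M d : ℕ} (h : Cond n M d) : d ≤ M := by
  have h1 := h.le
  have h2 : (1 : ℝ) ≤ Real.sqrt (n : ℝ) := by
    rw [Real.one_le_sqrt]
    exact_mod_cast (by have := h.nine; omega : 1 ≤ n)
  have h3 : (0 : ℝ) ≤ d := Nat.cast_nonneg d
  have h4 : (d : ℝ) ≤ (M : ℝ) := by nlinarith
  exact_mod_cast h4

/-- either the inequality is strict or the number of points is a square -/
theorem Cond.cases {n M d : ℕ} (hS : 0 < M) (h : Cond n M d) :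
    (9 ≤ n ∧ Real.sqrt (n : ℝ) * d < M) ∨
      ∃ k : ℕ, 4 ≤ k ∧ n = k ^ 2 ∧ 0 < d ∧ k * d ≤ M := by
  rcases h with h | ⟨h9, h⟩
  · exact Or.inl h
  rcases lt_or_eq_of_le h with h' | h'
  · exact Or.inl ⟨h9.le, h'⟩
  right
  have hd : 0 < d := by
    rcases Nat.eq_zero_or_pos d with h0 | h0
    · rw [h0, Nat.cast_zero, mul_zero] at h'
      have : M = 0 := by exact_mod_cast h'.symm
      omega
    · exact h0
  have h1 : (n : ℝ) * (d : ℝ) ^ 2 = (M : ℝ) ^ 2 := by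
    rw [← h', mul_pow, Real.sq_sqrt (Nat.cast_nonneg n)]
  have h2 : n * d ^ 2 = M ^ 2 := by exact_mod_cast h1
  obtain ⟨k, hk⟩ := (Nat.pow_dvd_pow_iff (by norm_num : (2 : ℕ) ≠ 0)).1
    (⟨n, by rw [mul_comm, h2]⟩ : d ^ 2 ∣ M ^ 2)
  have h3 : n = k ^ 2 := by
    have h4 : d ^ 2 * n = d ^ 2 * k ^ 2 := by rw [mul_comm, h2, hk]; ring
    exact Nat.eq_of_mul_eq_mul_left (by positivity) h4
  refine ⟨k, ?_, h3, hd, by rw [hk, mul_comm]⟩
  by_contra hcon
  have : k ≤ 3 := by omega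
  have : k ^ 2 ≤ 9 := by nlinarith
  omega

theorem ex_lower {r : ι → ℕ} (m : (i : ι) → Fin (r i) → ℕ) (k : ℕ) :
    ((∑ i, ∑ j, m i j : ℕ) : ℝ) - ((∑ i, r i : ℕ) : ℝ) * k ≤
      ((∑ i, ((ex (∑ j, m i j) (lm (m i)) k : ℕ) : ℤ) : ℤ) : ℝ) := by
  have h1 : (∑ i, ∑ j, m i j : ℕ) ≤ (∑ i, ex (∑ j, m i j) (lm (m i)) k) + (∑ i, r i) * k := by
    rw [Finset.sum_mul, ← Finset.sum_add_distrib]
    refine Finset.sum_le_sum fun i _ => ?_
    rw [ex_lm]
    have h2 : r i * k = ∑ _j : Fin (r i), k := by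
      rw [Finset.sum_const, Finset.card_univ, Fintype.card_fin, smul_eq_mul]
    rw [h2, ← Finset.sum_add_distrib]
    exact Finset.sum_le_sum fun j _ => by omega
  have h2 : ((∑ i, ∑ j, m i j : ℕ) : ℝ) ≤
      ((∑ i, ex (∑ j, m i j) (lm (m i)) k : ℕ) : ℝ) + ((∑ i, r i : ℕ) : ℝ) * k := by
    exact_mod_cast h1
  have h3 : ((∑ i, ((ex (∑ j, m i j) (lm (m i)) k : ℕ) : ℤ) : ℤ) : ℝ) =
      ((∑ i, ex (∑ j, m i j) (lm (m i)) k : ℕ) : ℝ) := by
    push_cast
    rfl
  rw [h3]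
  linarith

theorem exists_config {p : ℕ} (hp : p = 0 ∨ p.Prime) {r : ι → ℕ} (m : (i : ι) → Fin (r i) → ℕ)
    {d : ℕ} (hS : 0 < ∑ i, ∑ j, m i j) (h : Cond (∑ i, r i) (∑ i, ∑ j, m i j) d) :
    ∃ (L : Type) (_ : Field L) (_ : CharP L p) (c : ι → L) (a : ∀ i, Fin (r i) → L),
      NoForm (jets (fun i k => ∑ j, (m i j - k)) c a) d := by
  have e0 : (fun (i : ι) (k : ℕ) => ∑ j, (m i j - k)) = fun i => ex (∑ j, m i j) (lm (m i)) := by
    funext i
    rw [ex_lm]
  rw [e0]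
  rcases h.cases hS with ⟨h9, h1⟩ | ⟨k, hk, hkr, hd, h1⟩
  · obtain ⟨τ, h0, h2, hE⟩ := strictP hp (ι := ι) (w := fun i => ∑ j, m i j)
      (lam := fun i => lm (m i)) (fun i => lm_anti (m i)) h9 h1 (ex_lower m)
    exact key_severalP (fun i t => lm_le (m i) t) h0 h2 hE
  · have h3 := ex_lower m
    rw [hkr] at h3
    push_cast at h3
    obtain ⟨τ, h0, h2, hE⟩ := boundaryP hp (ι := ι) (w := fun i => ∑ j, m i j)
      (lam := fun i => lm (m i)) (fun i => lm_anti (m i)) hk hd h1 (by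
        intro j
        push_cast
        exact h3 j)
    exact key_severalP (fun i t => lm_le (m i) t) h0 h2 hE

theorem anti_sub {r : ℕ} (m : Fin r → ℕ) : Antitone fun k => ∑ j, (m j - k) := by
  intro a b h
  exact Finset.sum_le_sum fun j _ => by omega

/-- general unions of collisions -/
theorem main {r : ι → ℕ} (m : (i : ι) → Fin (r i) → ℕ) (hm : ∃ i j, 0 < m i j) (k : Type u)
    [Field k] :
    ∃ F : MvPolynomial (Σ i, Fin (r i + 1)) k, F ≠ 0 ∧
      ∀ (c : ι → k) (a : ∀ i, Fin (r i) → k), MvPolynomial.eval (par c a) F ≠ 0 →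
        ∀ d : ℕ, Cond (∑ i, r i) (∑ i, ∑ j, m i j) d →
          NoForm (jets (fun i k => ∑ j, (m i j - k)) c a) d := by
  classical
  obtain ⟨p, hp⟩ := CharP.exists k
  have hp' : p = 0 ∨ p.Prime := (CharP.char_is_prime_or_zero k p).symm
  have hS : 0 < ∑ i, ∑ j, m i j := by
    obtain ⟨i, j, hij⟩ := hm
    refine lt_of_lt_of_le hij ((Finset.single_le_sum (f := fun j => m i j)
      (fun _ _ => Nat.zero_le _) (Finset.mem_univ j)).trans
      (Finset.single_le_sum (f := fun i => ∑ j, m i j) (fun _ _ => Nat.zero_le _)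
        (Finset.mem_univ i)))
  by_cases hex : ∃ d, Cond (∑ i, r i) (∑ i, ∑ j, m i j) d
  · obtain ⟨d₀, hd₀⟩ := hex
    obtain ⟨D, hD⟩ : ∃ D, D = Nat.findGreatest
      (fun d => Cond (∑ i, r i) (∑ i, ∑ j, m i j) d) (∑ i, ∑ j, m i j) := ⟨_, rfl⟩
    have hDc : Cond (∑ i, r i) (∑ i, ∑ j, m i j) D := by
      rw [hD]
      exact Nat.findGreatest_spec (P := fun d => Cond (∑ i, r i) (∑ i, ∑ j, m i j) d) hd₀.bdd hd₀
    obtain ⟨L, _, _, c0, a0, h0⟩ := exists_config hp' m hS hDc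
    obtain ⟨F, hF, hF'⟩ := transfer (L := k) p (fun i => anti_sub (m i)) h0
    refine ⟨F, hF, fun c a hc d hd => (hF' c a hc).mono ?_⟩
    rw [hD]
    exact Nat.le_findGreatest hd.bdd hd
  · exact ⟨1, one_ne_zero, fun c a _ d hd => absurd ⟨d, hd⟩ hex⟩

end arith

end Pool.Agent.J6H44.UC
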