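import Pool.Agent.J6H44.UC.Mon

/-! The key lemma for several germs and unequal multiplicities. -/

set_option autoImplicit false

namespace Pool.Agent.J6H44.UC

open Pool.Agent.TH716.CF Pool.Agent.TH603.EL Pool.Agent.H932R2 Pool.Agent.H932R3

/-- the tube: no nonzero form has all its coefficients in the ideals -/
theorem key_generalP {p : ℕ} {ι : Type} {w : ι → ℕ} {lam : ι → ℕ → ℕ} {d : ℕ} {τ : ℝ}
    (h0 : 0 < τ) (h1 : τ < 1) (h : EmpP p w lam (Tri d τ)) :
    ∃ (K : Type) (_ : Field K) (_ : CharP K p) (φ : ι → (Lau K →+* PowerSeries K)),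
      (∀ i, IsGerm (φ i)) ∧ ∀ g : MvPolynomial (ZMod 3) (HK K), g.IsHomogeneous d → g ≠ 0 →
        ¬ ∀ i a, (ev (tube K τ (3 * d + 4)) g).coeff a ∈ PJ (φ i) (w i) (lam i) := by
  have h' : EmpP p w lam {m : ℤ × ℤ | ((m.1 + (-1) * m.2, m.2) : ℤ × ℤ) ∈ Tri d τ} :=
    h.shear (-1) (fun m hm => hm)
  obtain ⟨K, _, _, φ, hφ, hE⟩ := h'
  refine ⟨K, _, inferInstance, φ, hφ, ?_⟩
  intro g hg hne hall
  obtain ⟨a, ha, hb⟩ := tube_lead h0 h1 hg hne (s := 3 * d + 4) (by linarith)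
  apply ha
  apply hE
  · rintro ⟨i, j⟩ hm
    obtain ⟨h3, h4, h5⟩ := hb i j hm
    refine ⟨h3, ?_, ?_⟩
    · simp only
      push_cast
      linarith
    · simp only
      push_cast
      linarith
  · intro i
    exact hall i a

section generic
variable {L : Type} [Field L] {R : Type} [CommRing R]

open Polynomial in
theorem graph_idealP (inc : L →+* R) (a b : R) (ψ : R →+* PowerSeries L)
    (hinc : ∀ c, ψ (inc c) = PowerSeries.C c) (hx : PowerSeries.coeff 1 (ψ a) ≠ 0) (r : ℕ) :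
    ∃ (c : L) (q : L[X]), q.degree < r ∧ ∀ s ≤ r,
      (Ideal.span {X - C q, C ((X - C c) ^ s)} : Ideal L[X][X]) ≤
        J (ψ.comp (eval₂RingHom (eval₂RingHom inc a) b)) s := by
  have hincl : (ψ.comp inc : L →+* PowerSeries L) = PowerSeries.C := by
    ext c : 1
    exact hinc c
  obtain ⟨q, hq, hqd⟩ := exists_graph (y := ψ b) hx r
  refine ⟨PowerSeries.coeff 0 (ψ a), q, hq, fun s hs => ?_⟩
  rw [Ideal.span_le]
  rintro g (rfl | rfl)
  · show _ ∈ Ideal.comap _ _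
    rw [Ideal.mem_comap, Ideal.mem_span_singleton, RingHom.comp_apply, coe_eval₂RingHom,
      eval₂_sub, eval₂_X, eval₂_C, coe_eval₂RingHom, map_sub, hom_eval₂, hincl]
    exact (pow_dvd_pow _ hs).trans hqd
  · show _ ∈ Ideal.comap _ _
    rw [Ideal.mem_comap, Ideal.mem_span_singleton, RingHom.comp_apply, coe_eval₂RingHom,
      eval₂_C, coe_eval₂RingHom, hom_eval₂, hincl, eval₂_pow, eval₂_sub, eval₂_X, eval₂_C]
    apply pow_dvd_pow_of_dvd
    rw [PowerSeries.X_dvd_iff, map_sub]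
    simp

end generic

open Polynomial in
theorem coll_gen_allP {L : Type} [Field L] {R : Type} [CommRing R] {ι : Type} {r w : ι → ℕ}
    {lam : ι → ℕ → ℕ} (hr : ∀ i t, lam i t ≤ r i)
    (inc : L →+* R) (U : ZMod 3 → R) {V : R} (hV : V * U 0 = 1)
    (ψ : ι → (R →+* PowerSeries L)) (hinc : ∀ i c, ψ i (inc c) = PowerSeries.C c)
    (hx : ∀ i, PowerSeries.coeff 1 (ψ i (V * U 1)) ≠ 0) {d : ℕ} {I : ι → Ideal R}
    (hI : ∀ i, PJ (ψ i) (w i) (lam i) ≤ I i)
    (hE : ∀ g : MvPolynomial (ZMod 3) L, g.IsHomogeneous d → g ≠ 0 →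
      ¬ ∀ i, MvPolynomial.eval₂Hom inc U g ∈ I i) :
    ∃ (c : ι → L) (a : ∀ i, Fin (r i) → L), NoForm (jets (fun i => ex (w i) (lam i)) c a) d := by
  have h0 : ∀ i, ∃ (c : L) (q : L[X]), q.degree < r i ∧ ∀ s ≤ r i,
      (Ideal.span {X - C q, C ((X - C c) ^ s)} : Ideal L[X][X]) ≤
        J ((ψ i).comp (eval₂RingHom (eval₂RingHom inc (V * U 1)) (V * U 2))) s := fun i =>
    graph_idealP inc (V * U 1) (V * U 2) (ψ i) (hinc i) (hx i) (r i)
  choose c q hq hle using h0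
  refine ⟨c, fun i j => (q i).coeff j, ?_⟩
  intro P hP hIP
  have hIP' := mem_jets_iff.1 hIP
  rw [MvPolynomial.mem_homogeneousSubmodule] at hP
  by_contra hne
  have hqs : ∀ i, (∑ j : Fin (r i), C ((q i).coeff j) * X ^ (j : ℕ) : L[X]) = q i := by
    intro i
    rw [Fin.sum_univ_eq_sum_range (fun j => C ((q i).coeff j) * X ^ j : ℕ → L[X]) (r i)]
    by_cases hq0 : q i = 0
    · rw [hq0]; simp
    · exact (as_sum_range_C_mul_X_pow' _ ((natDegree_lt_iff_degree_lt hq0).2 (hq i))).symm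
  have hhom : (MvPolynomial.rename cyc P).IsHomogeneous d := hP.rename_isHomogeneous
  refine hE _ hhom ?_ ?_
  · intro h3
    exact hne (MvPolynomial.rename_injective _ cyc.injective (by rw [h3, map_zero]))
  · intro i
    have h1 := hIP' i
    simp only [hqs] at h1
    have h6 : deh L P ∈ PJ ((ψ i).comp (eval₂RingHom (eval₂RingHom inc (V * U 1)) (V * U 2)))
        (w i) (lam i) :=
      prod_mono (fun t => hle i (lam i t) (hr i t)) (w i) (MI_le_prod (c i) (q i) (lam i) (w i) h1)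
    have h2 := transferP0 (ψ i) (eval₂RingHom (eval₂RingHom inc (V * U 1)) (V * U 2)) h6
    have h5 : deh L P = (MvPolynomial.aeval ![C X, X, 1] :
        MvPolynomial (Fin 3) L →ₐ[L] L[X][X]) P := rfl
    rw [h5, cyc_eq inc U hV, Pool.Agent.TH716.CF.eval_smul hhom] at h2
    have h4 : MvPolynomial.eval₂Hom inc U (MvPolynomial.rename cyc P) =
        U 0 ^ d * (V ^ d * MvPolynomial.eval₂Hom inc U (MvPolynomial.rename cyc P)) := by
      rw [← mul_assoc, ← mul_pow, mul_comm (U 0) V, hV, one_pow, one_mul]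
    rw [h4]
    exact (I i).mul_mem_left _ (hI i h2)

theorem key_severalP {p : ℕ} {ι : Type} {r w : ι → ℕ} {lam : ι → ℕ → ℕ}
    (hr : ∀ i t, lam i t ≤ r i) {d : ℕ} {τ : ℝ} (h0 : 0 < τ) (h1 : τ < 1)
    (h : EmpP p w lam (Tri d τ)) :
    ∃ (L : Type) (_ : Field L) (_ : CharP L p) (c : ι → L) (a : ∀ i, Fin (r i) → L),
      NoForm (jets (fun i => ex (w i) (lam i)) c a) d := by
  obtain ⟨K, _, _, φ, hφ, hE⟩ := key_generalP h0 h1 h
  obtain ⟨V, hV⟩ : ∃ V : HR K, V * tube K τ (3 * d + 4) 0 = 1 := by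
    rw [tube_zero]
    obtain ⟨u, hu⟩ := theta0_isUnit (K := K) h0 h1
    exact ⟨↑u⁻¹, by rw [← hu]; exact Units.inv_mul u⟩
  have hx : ∀ i, PowerSeries.coeff 1 (hat (φ i) (V * tube K τ (3 * d + 4) 1)) ≠ 0 := by
    intro i
    rw [tube_one]
    exact x_der_ne h0 h1 (hφ i) (by rw [← tube_zero K τ (3 * d + 4)]; exact hV)
  exact ⟨HK K, inferInstance, inferInstance,
    coll_gen_allP hr incl (tube K τ (3 * d + 4)) hV (fun i => hat (φ i))
      (fun i => hat_incl (hφ i).const) hx (fun i => PJ_hat_le (φ i) (w i) (lam i))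
      fun g hg hne hmem => hE g hg hne fun i a => hmem i a⟩

end Pool.Agent.J6H44.UC
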