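import Pool.Agent.J6H44.UC.Num
import Pool.Agent.Y939.SC.Several

/-! The ideals of collisions of fat points with unequal multiplicities, and the transfer to general
parameters. -/

set_option autoImplicit false

namespace Pool.Agent.J6H44.UC

open Polynomial Pool.Agent.H932R2 Pool.Agent.H932R3 Pool.Agent.TH545.CF

universe u v

section MI

/-- the ideal generated by `(y - q) ^ t (x - c) ^ (e t)` for all `t` -/
noncomputable def MI {K : Type v} [Field K] (c : K) (q : K[X]) (e : ℕ → ℕ) : Ideal K[X][X] :=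
  Ideal.span (Set.range fun t : ℕ => (X - C q) ^ t * C ((X - C c) ^ e t))

theorem MI_le_prod {K : Type v} [Field K] (c : K) (q : K[X]) (lam : ℕ → ℕ) (w : ℕ) :
    MI c q (ex w lam) ≤
      ∏ t ∈ Finset.range w, (Ideal.span {X - C q, C ((X - C c) ^ lam t)} : Ideal K[X][X]) := by
  unfold MI
  rw [Ideal.span_le]
  rintro _ ⟨t, rfl⟩
  show (X - C q) ^ t * C ((X - C c) ^ ex w lam t) ∈
    ∏ t ∈ Finset.range w, (Ideal.span {X - C q, C ((X - C c) ^ lam t)} : Ideal K[X][X])
  induction w generalizing t with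
  | zero => rw [Finset.prod_range_zero, Ideal.one_eq_top]; exact Submodule.mem_top
  | succ w ih =>
    rw [Finset.prod_range_succ]
    rcases Nat.lt_or_ge w t with h | h
    · obtain ⟨t', rfl⟩ : ∃ t', t = t' + 1 := ⟨t - 1, by omega⟩
      have e1 : ex (w + 1) lam (t' + 1) = 0 := by
        unfold ex; rw [Finset.Ico_eq_empty (by omega), Finset.sum_empty]
      have e2 : ex w lam t' = 0 := by
        unfold ex; rw [Finset.Ico_eq_empty (by omega), Finset.sum_empty]
      have h1 := ih t'
      rw [e2] at h1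
      rw [e1, pow_succ, mul_right_comm]
      exact Ideal.mul_mem_mul h1 (Ideal.subset_span (Set.mem_insert _ _))
    · have e1 : ex (w + 1) lam t = ex w lam t + lam w := by
        unfold ex; rw [Finset.sum_Ico_succ_top h]
      rw [e1, pow_add, C_mul, ← mul_assoc]
      exact Ideal.mul_mem_mul (ih t) (Ideal.subset_span (Set.mem_insert_of_mem _ rfl))

theorem prod_le_MI {K : Type v} [Field K] (c : K) (q : K[X]) {lam : ℕ → ℕ} (hl : Antitone lam)
    (w : ℕ) : ∏ t ∈ Finset.range w, (Ideal.span {X - C q, C ((X - C c) ^ lam t)} :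
      Ideal K[X][X]) ≤ MI c q (ex w lam) := by
  have key : ∀ (e : ℕ → ℕ) (t n : ℕ) (a : K[X][X]), e t ≤ n →
      a * ((X - C q) ^ t * C ((X - C c) ^ n)) ∈ MI c q e := by
    intro e t n a h
    obtain ⟨m, rfl⟩ := Nat.exists_eq_add_of_le h
    rw [pow_add, C_mul, ← mul_assoc ((X - C q) ^ t)]
    exact Ideal.mul_mem_left _ _ (Ideal.mul_mem_right _ _ (Ideal.subset_span ⟨t, rfl⟩))
  induction w with
  | zero =>
    intro x _
    have h := key (ex 0 lam) 0 0 x (by unfold ex; simp)
    rw [pow_zero, pow_zero, C_1, mul_one, mul_one] at h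
    exact h
  | succ w ih =>
    rw [Finset.prod_range_succ]
    refine (Ideal.mul_mono_left ih).trans ?_
    unfold MI
    rw [Ideal.span_mul_span, Ideal.span_le]
    rintro _ ⟨_, ⟨t, rfl⟩, _, (rfl | rfl), rfl⟩
    · have h := key (ex (w + 1) lam) (t + 1) (ex w lam t) 1 (ex_shift hl w t)
      rw [one_mul, pow_succ, mul_right_comm] at h
      exact h
    · have h := key (ex (w + 1) lam) t (ex w lam t + lam w) 1 (ex_succ_le w lam t)
      rw [one_mul, pow_add, C_mul, ← mul_assoc] at h
      exact h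

theorem mem_M0 {K : Type v} [Field K] {e : ℕ → ℕ} (he : Antitone e) {g : K[X][X]} :
    g ∈ (Ideal.span (Set.range fun t : ℕ => (X : K[X][X]) ^ t * C (X ^ e t))) ↔
      ∀ l, ∀ i < e l, (g.coeff l).coeff i = 0 := by
  have h0 : (∀ l, ∀ i < e l, (g.coeff l).coeff i = 0) ↔ ∀ l, (X : K[X]) ^ e l ∣ g.coeff l := by
    simp only [X_pow_dvd_iff]
  rw [h0]
  clear h0
  constructor
  · intro h l
    induction h using Submodule.span_induction generalizing l with
    | mem x hx =>
      obtain ⟨t, rfl⟩ := hx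
      simp only
      rw [mul_comm, coeff_C_mul, coeff_X_pow]
      split_ifs with h1
      · rw [h1, mul_one]
      · rw [mul_zero]; exact dvd_zero _
    | zero => rw [coeff_zero]; exact dvd_zero _
    | add x y _ _ hx hy => rw [coeff_add]; exact dvd_add (hx l) (hy l)
    | smul a x _ hx =>
      rw [smul_eq_mul, coeff_mul]
      apply Finset.dvd_sum
      rintro ⟨i, j⟩ hij
      rw [Finset.HasAntidiagonal.mem_antidiagonal] at hij
      simp only at hij ⊢
      exact Dvd.dvd.mul_left (dvd_trans (pow_dvd_pow _ (he (by omega))) (hx j)) _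
  · intro h
    rw [as_sum_range_C_mul_X_pow g]
    refine Ideal.sum_mem _ fun l _ => ?_
    obtain ⟨b, hb⟩ := h l
    rw [hb, mul_comm, mul_comm ((X : K[X]) ^ e l) b, C_mul, mul_left_comm]
    exact Ideal.mul_mem_left _ _ (Ideal.subset_span ⟨l, rfl⟩)

theorem mem_MI {K : Type v} [Field K] {c : K} {q : K[X]} {e : ℕ → ℕ} (he : Antitone e)
    {f : K[X][X]} :
    f ∈ MI c q e ↔ ∀ l, ∀ i < e l, ((sh c q f).coeff l).coeff i = 0 := by
  rw [← mem_M0 he]
  have s1 : sh c q (X - C q) = X := by rw [map_sub, sh_X, sh_C]; ring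
  have s2 : ∀ n : ℕ, sh c q (C ((X - C c) ^ n)) = C (X ^ n) := by
    intro n
    rw [sh_C, pow_comp, sub_comp, X_comp, C_comp, add_sub_cancel_right]
  constructor
  · intro h
    unfold MI at h
    have h1 := Ideal.mem_map_of_mem (sh c q) h
    rw [Ideal.map_span] at h1
    refine Ideal.span_mono ?_ h1
    rintro _ ⟨_, ⟨t, rfl⟩, rfl⟩
    refine ⟨t, ?_⟩
    show X ^ t * C (X ^ e t) = sh c q ((X - C q) ^ t * C ((X - C c) ^ e t))
    rw [RingHom.map_mul, RingHom.map_pow (sh c q), s1, s2]
  · intro h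
    have h1 := Ideal.mem_map_of_mem (sh (-c) (-(q.comp (X + C c)))) h
    rw [sh_sh, Ideal.map_span] at h1
    unfold MI
    refine Ideal.span_mono ?_ h1
    rintro _ ⟨_, ⟨t, rfl⟩, rfl⟩
    refine ⟨t, ?_⟩
    have h2 : (X : K[X][X]) ^ t * C (X ^ e t) =
        sh c q ((X - C q) ^ t * C ((X - C c) ^ e t)) := by
      rw [RingHom.map_mul, RingHom.map_pow (sh c q), s1, s2]
    show (X - C q) ^ t * C ((X - C c) ^ e t) =
      sh (-c) (-(q.comp (X + C c))) (X ^ t * C (X ^ e t))
    rw [h2, sh_sh]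

theorem mem_MI_sum {K : Type v} [Field K] {r : ℕ} {c : K} {a : Fin r → K} {e : ℕ → ℕ}
    (he : Antitone e) {N : ℕ} (es : Fin N → ℕ × ℕ) (v : Fin N → K) :
    (∑ s, v s • mon K (es s)) ∈ MI c (∑ j : Fin r, C (a j) * X ^ (j : ℕ)) e ↔
      ∀ p : {p : ℕ × ℕ // p.1 < e p.2},
        ∑ s, MvPolynomial.aeval (Fin.cons c a : Fin (r + 1) → K) (entC r p.1 (es s)) * v s = 0 := by
  rw [mem_MI he]
  have h0 : ∀ p : ℕ × ℕ,
      ((sh c (∑ j : Fin r, C (a j) * X ^ (j : ℕ)) (∑ s, v s • mon K (es s))).coeff p.2).coeff p.1 =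
      ∑ s, MvPolynomial.aeval (Fin.cons c a : Fin (r + 1) → K) (entC r p (es s)) * v s := by
    intro p
    rw [map_sum, finsetSum_coeff, finsetSum_coeff]
    refine Finset.sum_congr rfl fun s _ => ?_
    have h1 : v s • mon K (es s) = C (C (v s)) * mon K (es s) := by
      rw [← smul_eq_C_mul, ← algebraMap_smul K[X] (v s) (mon K (es s))]
      rfl
    rw [h1, map_mul, sh_C, C_comp, coeff_C_mul, coeff_C_mul, entC_aeval, mul_comm]
  constructor
  · rintro h ⟨p, hp⟩
    rw [← h0]
    exact h p.2 p.1 hp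
  · intro h l i hi
    have h1 := h ⟨(i, l), hi⟩
    rw [← h0] at h1
    exact h1

end MI

section transfer
variable {ι : Type} {r : ι → ℕ}

open Pool.Agent.Y939.SC (par aeval_rename_mk)

/-- the ideal of the union of the collisions -/
noncomputable def jets {K : Type v} [Field K] (e : ι → ℕ → ℕ) (c : ι → K)
    (a : ∀ i, Fin (r i) → K) : Ideal K[X][X] :=
  ⨅ i, MI (c i) (∑ j : Fin (r i), C (a i j) * X ^ (j : ℕ)) (e i)

theorem mem_jets_iff {K : Type v} [Field K] {e : ι → ℕ → ℕ} {c : ι → K}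
    {a : ∀ i, Fin (r i) → K} {f : K[X][X]} :
    f ∈ jets e c a ↔ ∀ i, f ∈ MI (c i) (∑ j : Fin (r i), C (a i j) * X ^ (j : ℕ)) (e i) := by
  unfold jets
  rw [Ideal.mem_iInf]

theorem mem_jets {K : Type v} [Field K] {e : ι → ℕ → ℕ} (he : ∀ i, Antitone (e i)) {c : ι → K}
    {a : ∀ i, Fin (r i) → K} {N : ℕ} (es : Fin N → ℕ × ℕ) (v : Fin N → K) :
    (∑ s, v s • mon K (es s)) ∈ jets e c a ↔
      ∀ q : Σ i, {p : ℕ × ℕ // p.1 < e i p.2}, ∑ s, MvPolynomial.aeval (par c a)
        (MvPolynomial.rename (Sigma.mk q.1) (entC (r q.1) q.2.1 (es s))) * v s = 0 := by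
  rw [mem_jets_iff]
  constructor
  · rintro h ⟨i, q⟩
    have h1 := (mem_MI_sum (he i) es v).1 (h i) q
    rw [← h1]
    exact Finset.sum_congr rfl fun s _ => by rw [aeval_rename_mk]
  · intro h i
    rw [mem_MI_sum (he i)]
    intro q
    rw [← h ⟨i, q⟩]
    exact Finset.sum_congr rfl fun s _ => by rw [aeval_rename_mk]

/-- emptiness passes from one union of collisions to general ones over every field of the same
characteristic -/
theorem transfer {K : Type v} [Field K] {L : Type u} [Field L] (p : ℕ) [CharP K p]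
    [CharP L p] {e : ι → ℕ → ℕ} (he : ∀ i, Antitone (e i)) {d : ℕ} {c0 : ι → K}
    {a0 : ∀ i, Fin (r i) → K} (h : NoForm (jets e c0 a0) d) :
    ∃ F : MvPolynomial (Σ i, Fin (r i + 1)) L, F ≠ 0 ∧
      ∀ (c : ι → L) (a : ∀ i, Fin (r i) → L), MvPolynomial.eval (par c a) F ≠ 0 →
        NoForm (jets e c a) d := by
  classical
  obtain ⟨b, hb⟩ := Pool.Agent.TH15.Nag.exists_rows
    (fun (q : Σ i, {p : ℕ × ℕ // p.1 < e i p.2}) (s : Fin (Tfin d).card) =>
      MvPolynomial.aeval (par c0 a0)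
        (MvPolynomial.rename (Sigma.mk q.1) (entC (r q.1) q.2.1 (enumM (Tfin d) s)))) (by
    intro v hv
    exact noForm_iff'.1 h v ((mem_jets he _ v).2 hv))
  let D : MvPolynomial (Σ i, Fin (r i + 1)) ℤ :=
    (Matrix.of fun (j s : Fin (Tfin d).card) => MvPolynomial.rename (Sigma.mk (b j).1)
      (entC (r (b j).1) (b j).2.1 (enumM (Tfin d) s))).det
  have hDK : MvPolynomial.aeval (par c0 a0) D ≠ 0 := by
    intro h0
    apply hb
    rw [← h0]
    show _ = (MvPolynomial.aeval (par c0 a0)) (Matrix.det _)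
    rw [AlgHom.map_det]
    rfl
  refine ⟨MvPolynomial.map (Int.castRingHom L) D, ?_, fun c a hc => ?_⟩
  · intro h1
    apply hDK
    have h2 : ∀ α, ((MvPolynomial.coeff α D : ℤ) : K) = 0 := by
      intro α
      have h3 := congrArg (MvPolynomial.coeff α) h1
      rw [MvPolynomial.coeff_map, MvPolynomial.coeff_zero, eq_intCast,
        CharP.intCast_eq_zero_iff L p] at h3
      rw [CharP.intCast_eq_zero_iff K p]
      exact h3
    have h3 : MvPolynomial.map (Int.castRingHom K) D = 0 := by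
      ext α
      rw [MvPolynomial.coeff_map, MvPolynomial.coeff_zero]
      exact h2 α
    have h4 : MvPolynomial.aeval (par c0 a0) D =
        MvPolynomial.eval (par c0 a0) (MvPolynomial.map (Int.castRingHom K) D) := by
      rw [MvPolynomial.eval_map, MvPolynomial.aeval_def]
      congr 1
    rw [h4, h3, map_zero]
  · have hdet : (Matrix.of fun (j s : Fin (Tfin d).card) =>
        MvPolynomial.aeval (par c a) (MvPolynomial.rename (Sigma.mk (b j).1)
          (entC (r (b j).1) (b j).2.1 (enumM (Tfin d) s)))).det ≠ 0 := by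
      intro h0
      apply hc
      have h4 : MvPolynomial.eval (par c a) (MvPolynomial.map (Int.castRingHom L) D) =
          MvPolynomial.aeval (par c a) D := by
        rw [MvPolynomial.eval_map, MvPolynomial.aeval_def]
        congr 1
      rw [h4, ← h0]
      show (MvPolynomial.aeval (par c a)) (Matrix.det _) = _
      rw [AlgHom.map_det]
      rfl
    refine noForm_iff'.2 fun v hv => ?_
    rw [mem_jets he] at hv
    apply Matrix.eq_zero_of_mulVec_eq_zero hdet
    funext j
    rw [Matrix.mulVec, dotProduct, Pi.zero_apply]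
    exact hv (b j)

end transfer

end Pool.Agent.J6H44.UC
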