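import Pool.Agent.J6H44.UC.Rows
import Pool.Agent.TH716.CF.Bd

/-! The strict case and the boundary case. -/

set_option autoImplicit false

namespace Pool.Agent.J6H44.UC

open Pool.Agent.TH716.CF

theorem strictP {p : ℕ} (hp : p = 0 ∨ p.Prime) {ι : Type} [Fintype ι] {w : ι → ℕ}
    {lam : ι → ℕ → ℕ} (hl : ∀ i, Antitone (lam i)) {n₀ M d : ℕ} (hn : 9 ≤ n₀)
    (h : √(n₀ : ℝ) * d < M)
    (hex : ∀ j : ℕ, (M : ℝ) - (n₀ : ℝ) * j ≤ ((∑ i, ((ex (w i) (lam i) j : ℕ) : ℤ) : ℤ) : ℝ)) :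
    ∃ τ : ℝ, 0 < τ ∧ τ < 1 ∧ EmpP p w lam (Tri d τ) := by
  obtain ⟨n, hndef⟩ : ∃ n : ℝ, n = (n₀ : ℝ) := ⟨_, rfl⟩
  have hn' : (9 : ℝ) ≤ n := by rw [hndef]; exact_mod_cast hn
  obtain ⟨s, hs⟩ : ∃ s, s = √n := ⟨_, rfl⟩
  have hs2 : s ^ 2 = n := by rw [hs]; exact Real.sq_sqrt (by linarith)
  have hs3 : 3 ≤ s := by
    rw [hs]
    apply Real.le_sqrt_of_sq_le
    linarith
  rw [← hndef, ← hs] at h
  have hd : (0 : ℝ) ≤ d := Nat.cast_nonneg d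
  -- the slope
  obtain ⟨τ, hτ⟩ : ∃ τ : ℝ, τ = s - ((⌈3 * s⌉ - 1 : ℤ) : ℝ) / 3 := ⟨_, rfl⟩
  have hc1 : 3 * s ≤ ⌈3 * s⌉ := Int.le_ceil _
  have hc2 : (⌈3 * s⌉ : ℝ) < 3 * s + 1 := Int.ceil_lt_add_one _
  have h0 : 0 < τ := by
    rw [hτ]; push_cast; linarith
  have h1 : τ < 1 := by
    rw [hτ]; push_cast; linarith
  obtain ⟨c, hc⟩ : ∃ c : ℤ, (c : ℝ) = 3 * s - 3 * (1 + τ) := ⟨⌈3 * s⌉ - 1 - 3, by
    rw [hτ]; push_cast; ring⟩
  refine ⟨τ, h0, h1, ?_⟩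
  have e0 : EmpP p w lam {m : ℤ × ℤ | 0 ≤ m.2 ∧ -((d : ℝ) * (1 + τ)) + 3 * s * m.2 ≤ m.1 ∧
      (m.1 : ℝ) ≤ -((d : ℝ) * (1 + τ)) + d * s - (s ^ 2 - 3 * s) * m.2} := by
    refine EmpP_final hp hl (fun j => ⌈-((d : ℝ) * (1 + τ)) + 3 * s * j⌉)
      (fun j => ⌊-((d : ℝ) * (1 + τ)) + d * s - (s ^ 2 - 3 * s) * j⌋) ?_ ?_
    · rintro ⟨a, b⟩ ⟨g1, g2, g3⟩
      simp only at g1 g2 g3
      refine ⟨g1, fun j hj => ⟨Int.ceil_le.2 ?_, Int.le_floor.2 ?_⟩⟩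
      · simp only at hj ⊢
        have hj' : (j : ℝ) ≤ b := by exact_mod_cast hj
        have : 3 * s * j ≤ 3 * s * b := mul_le_mul_of_nonneg_left hj' (by linarith)
        linarith
      · simp only at hj ⊢
        have hj' : (j : ℝ) ≤ b := by exact_mod_cast hj
        have : (s ^ 2 - 3 * s) * j ≤ (s ^ 2 - 3 * s) * b :=
          mul_le_mul_of_nonneg_left hj' (by nlinarith)
        linarith
    · intro j
      have f1 := Int.le_ceil (-((d : ℝ) * (1 + τ)) + 3 * s * j)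
      have f2 := Int.floor_le (-((d : ℝ) * (1 + τ)) + d * s - (s ^ 2 - 3 * s) * j)
      have f3 := hex j
      rw [← hndef, ← hs2] at f3
      have f4 : ((⌊-((d : ℝ) * (1 + τ)) + d * s - (s ^ 2 - 3 * s) * j⌋ -
          ⌈-((d : ℝ) * (1 + τ)) + 3 * s * j⌉ : ℤ) : ℝ) <
          ((∑ i, ((ex (w i) (lam i) j : ℕ) : ℤ) : ℤ) : ℝ) := by
        rw [Int.cast_sub]
        linarith
      exact_mod_cast f4
  have e1 : EmpP p w lam {m : ℤ × ℤ | ((m.1 - c * m.2, m.2) : ℤ × ℤ) ∈ Tri d τ} := by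
    refine e0.flat0 ?_
    rintro a b T k ⟨g1, g2, g3⟩ ⟨g4, g5, g6⟩ hk hkT
    simp only at g1 g2 g3 g4 g5 g6
    push_cast at g2 g3 g5 g6
    have hb : (0 : ℝ) ≤ b := by exact_mod_cast g1
    have hkT' : (k : ℝ) ≤ T := by exact_mod_cast hkT
    have hk0 : (0 : ℝ) ≤ k := by exact_mod_cast hk
    refine ⟨hk, ?_, ?_⟩
    · simp only
      have X2 : 0 ≤ (a : ℝ) + (d : ℝ) * (1 + τ) - 3 * s * (b + T) := by
        have : (a : ℝ) + (d : ℝ) * (1 + τ) - 3 * s * (b + T) =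
            (a - (3 * s - 3 * (1 + τ)) * (b + T)) + ((d : ℝ) - 3 * (b + T)) * (1 + τ) := by ring
        rw [this, ← hc]
        linarith
      have : 3 * s * k ≤ 3 * s * (b + T) := mul_le_mul_of_nonneg_left (by linarith) (by linarith)
      linarith
    · simp only
      have X2 : 0 ≤ (a : ℝ) + (d : ℝ) * (1 + τ) - 3 * s * (b + T) := by
        have : (a : ℝ) + (d : ℝ) * (1 + τ) - 3 * s * (b + T) =
            (a - (3 * s - 3 * (1 + τ)) * (b + T)) + ((d : ℝ) - 3 * (b + T)) * (1 + τ) := by ring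
        rw [this, ← hc]
        linarith
      have X1 : 0 ≤ (d : ℝ) * (2 - τ) + (3 * s - 9) * b - a := by
        have : (d : ℝ) * (2 - τ) + (3 * s - 9) * b - a =
            ((d : ℝ) - 3 * b) * (2 - τ) - (a - (3 * s - 3 * (1 + τ)) * b) := by ring
        rw [this, ← hc]
        linarith
      have e2 : 9 * (-((d : ℝ) * (1 + τ)) + d * s - (s ^ 2 - 3 * s) * T - a) =
          3 * s * ((d : ℝ) * (2 - τ) + (3 * s - 9) * b - a) +
          (3 * s - 9) * ((a : ℝ) + (d : ℝ) * (1 + τ) - 3 * s * (b + T)) := by ring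
      have p1 : 0 ≤ 3 * s * ((d : ℝ) * (2 - τ) + (3 * s - 9) * b - a) :=
        mul_nonneg (by linarith) X1
      have p2 : 0 ≤ (3 * s - 9) * ((a : ℝ) + (d : ℝ) * (1 + τ) - 3 * s * (b + T)) :=
        mul_nonneg (by linarith) X2
      have p3 : (s ^ 2 - 3 * s) * k ≤ (s ^ 2 - 3 * s) * T :=
        mul_le_mul_of_nonneg_left hkT' (by nlinarith)
      linarith
  refine e1.shear c ?_
  intro m hm
  show ((m.1 + c * m.2 - c * m.2, m.2) : ℤ × ℤ) ∈ Tri d τ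
  rw [add_sub_cancel_right]
  exact hm

theorem flat_triP {p : ℕ} {ι : Type} {w : ι → ℕ} {lam : ι → ℕ → ℕ} {d : ℕ} {s τ : ℝ}
    (hs3 : 3 ≤ s) {c : ℤ} (hc : (c : ℝ) = 3 * s - 3 * (1 + τ)) (e0 : EmpP p w lam (Shp d s τ)) :
    EmpP p w lam (Tri d τ) := by
  have e1 : EmpP p w lam {m : ℤ × ℤ | ((m.1 - c * m.2, m.2) : ℤ × ℤ) ∈ Tri d τ} := by
    refine e0.flat0 ?_
    rintro a b T k ⟨g1, g2, g3⟩ ⟨g4, g5, g6⟩ hk hkT
    simp only at g1 g2 g3 g4 g5 g6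
    push_cast at g2 g3 g5 g6
    have hb : (0 : ℝ) ≤ b := by exact_mod_cast g1
    have hkT' : (k : ℝ) ≤ T := by exact_mod_cast hkT
    have hk0 : (0 : ℝ) ≤ k := by exact_mod_cast hk
    refine ⟨hk, ?_, ?_⟩
    · simp only
      have X2 : 0 ≤ (a : ℝ) + (d : ℝ) * (1 + τ) - 3 * s * (b + T) := by
        have : (a : ℝ) + (d : ℝ) * (1 + τ) - 3 * s * (b + T) =
            (a - (3 * s - 3 * (1 + τ)) * (b + T)) + ((d : ℝ) - 3 * (b + T)) * (1 + τ) := by ring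
        rw [this, ← hc]
        linarith
      have : 3 * s * k ≤ 3 * s * (b + T) := mul_le_mul_of_nonneg_left (by linarith) (by linarith)
      linarith
    · simp only
      have X2 : 0 ≤ (a : ℝ) + (d : ℝ) * (1 + τ) - 3 * s * (b + T) := by
        have : (a : ℝ) + (d : ℝ) * (1 + τ) - 3 * s * (b + T) =
            (a - (3 * s - 3 * (1 + τ)) * (b + T)) + ((d : ℝ) - 3 * (b + T)) * (1 + τ) := by ring
        rw [this, ← hc]
        linarith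
      have X1 : 0 ≤ (d : ℝ) * (2 - τ) + (3 * s - 9) * b - a := by
        have : (d : ℝ) * (2 - τ) + (3 * s - 9) * b - a =
            ((d : ℝ) - 3 * b) * (2 - τ) - (a - (3 * s - 3 * (1 + τ)) * b) := by ring
        rw [this, ← hc]
        linarith
      have e2 : 9 * (-((d : ℝ) * (1 + τ)) + d * s - (s ^ 2 - 3 * s) * T - a) =
          3 * s * ((d : ℝ) * (2 - τ) + (3 * s - 9) * b - a) +
          (3 * s - 9) * ((a : ℝ) + (d : ℝ) * (1 + τ) - 3 * s * (b + T)) := by ring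
      have p1 : 0 ≤ 3 * s * ((d : ℝ) * (2 - τ) + (3 * s - 9) * b - a) :=
        mul_nonneg (by linarith) X1
      have p2 : 0 ≤ (3 * s - 9) * ((a : ℝ) + (d : ℝ) * (1 + τ) - 3 * s * (b + T)) :=
        mul_nonneg (by linarith) X2
      have p3 : (s ^ 2 - 3 * s) * k ≤ (s ^ 2 - 3 * s) * T :=
        mul_le_mul_of_nonneg_left hkT' (by nlinarith)
      linarith
  refine e1.shear c ?_
  intro m hm
  show ((m.1 + c * m.2 - c * m.2, m.2) : ℤ × ℤ) ∈ Tri d τ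
  rw [add_sub_cancel_right]
  exact hm

theorem boundaryP {p : ℕ} (hp : p = 0 ∨ p.Prime) {ι : Type} [Fintype ι]
    {w : ι → ℕ} {lam : ι → ℕ → ℕ} (hl : ∀ i, Antitone (lam i)) {k M d : ℕ} (hk : 4 ≤ k)
    (hd : 0 < d) (h : k * d ≤ M)
    (hex : ∀ j : ℕ, (M : ℝ) - (k : ℝ) ^ 2 * j ≤
      ((∑ i, ((ex (w i) (lam i) j : ℕ) : ℤ) : ℤ) : ℝ)) :
    ∃ τ : ℝ, 0 < τ ∧ τ < 1 ∧ EmpP p w lam (Tri d τ) := by
  have hk' : (4 : ℝ) ≤ k := by exact_mod_cast hk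
  have hd' : (1 : ℝ) ≤ d := by exact_mod_cast hd
  have hkd : (0 : ℝ) < 6 * k * (d + 1) := by positivity
  obtain ⟨ε, hε⟩ : ∃ ε : ℝ, ε = 1 / (6 * k * (d + 1)) := ⟨_, rfl⟩
  have hε1 : ε * (6 * k * (d + 1)) = 1 := by rw [hε]; field_simp
  have hε0 : 0 < ε := by rw [hε]; positivity
  have hε2 : ε ≤ 1 / 6 := by
    by_contra hcon
    push Not at hcon
    have h1 : (48 : ℝ) ≤ 6 * k * (d + 1) := by nlinarith
    nlinarith
  have hεk : ε * k * (d + 1) = 1 / 6 := by linarith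
  refine ⟨1 / 3 - ε, by linarith, by linarith, ?_⟩
  refine flat_triP (s := k - ε) (c := 3 * k - 4) (by linarith) (by push_cast; ring) ?_
  have hs3 : 0 < (k : ℝ) - ε - 3 := by linarith
  have hR : (k : ℝ) * d ≤ (M : ℝ) := by exact_mod_cast h
  refine EmpP_final hp hl (fun j => ⌊-(4 * (d : ℝ) / 3) + 3 * k * j⌋ + 1)
      (fun j => ⌊-(4 * (d : ℝ) / 3) + d * k - ((k : ℝ) ^ 2 - 3 * k) * j⌋) ?_ ?_
  · rintro ⟨a, b⟩ ⟨g1, g2, g3⟩
    simp only at g1 g2 g3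
    have hb : (0 : ℝ) ≤ b := by exact_mod_cast g1
    have hbd : 3 * (b : ℝ) < d := by
      have h1 : ((k : ℝ) - ε) * ((k - ε) * b) ≤ (k - ε) * d := by nlinarith
      have h2 : ((k : ℝ) - ε) * b ≤ d := le_of_mul_le_mul_left h1 (by linarith)
      rcases eq_or_lt_of_le hb with h3 | h3
      · rw [← h3]; linarith
      · nlinarith
    have A1 : -(4 * (d : ℝ) / 3) + 3 * k * b < a := by
      have : 0 < ε * (d - 3 * b) := mul_pos hε0 (by linarith)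
      nlinarith
    have B1 : 3 * a ≤ -(4 * (d : ℤ)) + 3 * d * k - 3 * ((k : ℤ) ^ 2 - 3 * k) * b := by
      have h1 : (3 * a : ℝ) < -(4 * (d : ℝ)) + 3 * d * k - 3 * ((k : ℝ) ^ 2 - 3 * k) * b + 1 := by
        have h2 : 3 * ε * (2 * k - 3) * b < 1 := by
          have h3 : ε * k * b ≤ ε * k * (d + 1) / 3 := by
            have : ε * k * b ≤ ε * k * ((d + 1) / 3) :=
              mul_le_mul_of_nonneg_left (by linarith) (by positivity)
            linarith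
          have h4 : 0 ≤ ε * b := by positivity
          nlinarith
        have h5 : 0 ≤ ε ^ 2 * b := by positivity
        nlinarith
      have h6 : (3 * a : ℤ) < -(4 * (d : ℤ)) + 3 * d * k - 3 * ((k : ℤ) ^ 2 - 3 * k) * b + 1 := by
        exact_mod_cast h1
      omega
    refine ⟨g1, fun j hj => ⟨?_, Int.le_floor.2 ?_⟩⟩
    · simp only at hj ⊢
      have hj' : (j : ℝ) ≤ b := by exact_mod_cast hj
      have h1 : 3 * (k : ℝ) * j ≤ 3 * k * b := mul_le_mul_of_nonneg_left hj' (by positivity)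
      have h2 : ⌊-(4 * (d : ℝ) / 3) + 3 * k * j⌋ < a := Int.floor_lt.2 (by linarith)
      omega
    · simp only at hj ⊢
      have hj' : (j : ℝ) ≤ b := by exact_mod_cast hj
      have h1 : ((k : ℝ) ^ 2 - 3 * k) * j ≤ (k ^ 2 - 3 * k) * b :=
        mul_le_mul_of_nonneg_left hj' (by nlinarith)
      have h2 : (3 * a : ℝ) ≤ -(4 * (d : ℝ)) + 3 * d * k - 3 * ((k : ℝ) ^ 2 - 3 * k) * b := by
        exact_mod_cast B1
      linarith
  · intro j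
    have f1 := Int.lt_floor_add_one (-(4 * (d : ℝ) / 3) + 3 * k * j)
    have f2 := Int.floor_le (-(4 * (d : ℝ) / 3) + d * k - ((k : ℝ) ^ 2 - 3 * k) * j)
    have f3 := hex j
    have f4 : ((⌊-(4 * (d : ℝ) / 3) + d * k - ((k : ℝ) ^ 2 - 3 * k) * j⌋ -
        (⌊-(4 * (d : ℝ) / 3) + 3 * k * j⌋ + 1) : ℤ) : ℝ) <
        ((∑ i, ((ex (w i) (lam i) j : ℕ) : ℤ) : ℤ) : ℝ) := by
      rw [Int.cast_sub, Int.cast_add, Int.cast_one]
      linarith
    exact_mod_cast f4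

end Pool.Agent.J6H44.UC
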