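import Pool.Agent.TH716.CF.Flat
import Pool.Agent.TH716.CF.Defs
import Pool.Agent.TH98.CF.Final

/-! Products of curvilinear ideals of one germ: transfer, flattening, and the final step. -/

set_option autoImplicit false

namespace Pool.Agent.J6H44.UC

open Finset Pool.Agent.TH716.CF Pool.Agent.TH603.EL

section prod

theorem prod_comap_le {A B : Type} [CommRing A] [CommRing B] (Φ : A →+* B) (I : ℕ → Ideal B)
    (w : ℕ) : ∏ t ∈ range w, (I t).comap Φ ≤ (∏ t ∈ range w, I t).comap Φ := by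
  induction w with
  | zero =>
    intro x _
    rw [Ideal.mem_comap, prod_range_zero, Ideal.one_eq_top]
    exact Submodule.mem_top
  | succ w ih =>
    rw [prod_range_succ, prod_range_succ]
    exact (Ideal.mul_mono_left ih).trans (Ideal.le_comap_mul Φ)

theorem CI_prod_le {B : Type} [CommRing B] (I : ℕ → Ideal B) (w : ℕ) :
    ∏ t ∈ range w, CI (I t) ≤ CI (∏ t ∈ range w, I t) := by
  induction w with
  | zero => intro x _ a; simp
  | succ w ih =>
    rw [prod_range_succ, prod_range_succ]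
    exact (Ideal.mul_mono_left ih).trans (CI_mul_le _ _)

theorem prod_mono {B : Type} [CommRing B] {I I' : ℕ → Ideal B} (h : ∀ t, I t ≤ I' t) (w : ℕ) :
    ∏ t ∈ range w, I t ≤ ∏ t ∈ range w, I' t := by
  induction w with
  | zero => exact le_rfl
  | succ w ih =>
    rw [prod_range_succ, prod_range_succ]
    exact Ideal.mul_mono ih (h w)

/-- the product of the ideals of the curvilinear schemes of lengths `lam 0, ..., lam (w - 1)` -/
noncomputable def PJ {A : Type} [CommRing A] {K : Type} [Field K] (φ : A →+* PowerSeries K)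
    (w : ℕ) (lam : ℕ → ℕ) : Ideal A := ∏ t ∈ range w, J φ (lam t)

theorem PJ_hat_le {B : Type} [CommRing B] {K : Type} [Field K] (φ : B →+* PowerSeries K) (w : ℕ)
    (lam : ℕ → ℕ) : PJ (hat φ) w lam ≤ CI (PJ φ w lam) := by
  unfold PJ
  have h : ∀ t, J (hat φ) (lam t) = CI (J φ (lam t)) := fun t => J_hat φ _
  simp_rw [h]
  exact CI_prod_le _ w

/-- **transfer** for products -/
theorem transferP {B : Type} [CommRing B] {K : Type} [Field K] {A : Type} [CommRing A]
    (φ : B →+* PowerSeries K) (Φ : A →+* HahnSeries ℝ B) {w : ℕ} {lam : ℕ → ℕ} {f : A}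
    (hf : f ∈ PJ ((hat φ).comp Φ) w lam) (a : ℝ) : (Φ f).coeff a ∈ PJ φ w lam := by
  have h1 : PJ ((hat φ).comp Φ) w lam ≤ (PJ (hat φ) w lam).comap Φ :=
    prod_comap_le Φ (fun t => J (hat φ) (lam t)) w
  exact PJ_hat_le φ w lam (h1 hf) a

theorem transferP0 {A A' : Type} [CommRing A] [CommRing A'] {K : Type} [Field K]
    (φ : A' →+* PowerSeries K) (Φ : A →+* A') {w : ℕ} {lam : ℕ → ℕ} {f : A}
    (hf : f ∈ PJ (φ.comp Φ) w lam) : Φ f ∈ PJ φ w lam :=
  prod_comap_le Φ (fun t => J φ (lam t)) w hf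

end prod

/-- in characteristic `p`, for some germs, no nonzero Laurent polynomial with exponents in `S` is
in the product of the ideals of the curvilinear schemes of lengths `lam i t`, `t < w i`, of the
`i`-th germ for all `i` -/
def EmpP (p : ℕ) {ι : Type} (w : ι → ℕ) (lam : ι → ℕ → ℕ) (S : Set (ℤ × ℤ)) : Prop :=
  ∃ (K : Type) (_ : Field K) (_ : CharP K p) (φ : ι → (Lau K →+* PowerSeries K)),
    (∀ i, IsGerm (φ i)) ∧ ∀ f : Lau K, (∀ m, f.coeff m ≠ 0 → m ∈ S) →
      (∀ i, f ∈ PJ (φ i) (w i) (lam i)) → f = 0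

variable {p : ℕ} {ι : Type} {w : ι → ℕ} {lam : ι → ℕ → ℕ} {S S' : Set (ℤ × ℤ)}

theorem EmpP.shear (k : ℤ) (h : EmpP p w lam S') (hS : ∀ m ∈ S, (m.1 + k * m.2, m.2) ∈ S') :
    EmpP p w lam S := by
  obtain ⟨K, _, _, φ, hφ, hf⟩ := h
  let Φ : Lau K →+* Lau K := AddMonoidAlgebra.mapDomainRingHom K (sh k)
  have hΦ : ∀ f, Φ f = AddMonoidAlgebra.mapDomain (sh k) f := fun f => rfl
  refine ⟨K, _, inferInstance, fun i => (φ i).comp Φ, fun i => ⟨fun c => ?_, ?_⟩, ?_⟩
  · rw [RingHom.comp_apply, hΦ, AddMonoidAlgebra.mapDomain_single, map_zero]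
    exact (hφ i).const c
  · rw [RingHom.comp_apply, hΦ, AddMonoidAlgebra.mapDomain_single]
    have : sh k (1, 0) = (1, 0) := by simp [sh]
    rw [this]
    exact (hφ i).der
  · intro f h1 h2
    have h3 : Φ f = 0 := by
      apply hf
      · intro m hm
        rw [hΦ, AddMonoidAlgebra.coeff_mapDomain] at hm
        have h4 := Finsupp.mapDomain_support (Finsupp.mem_support_iff.2 hm)
        rw [Finset.mem_image] at h4
        obtain ⟨m', hm', rfl⟩ := h4
        exact hS m' (h1 m' (Finsupp.mem_support_iff.1 hm'))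
      · intro i
        exact transferP0 (φ i) Φ (h2 i)
    apply AddMonoidAlgebra.mapDomain_injective (sh_injective k)
    rw [← hΦ, ← hΦ, h3, map_zero]

/-- **flattening**, columns are intervals -/
theorem EmpP.flat0 (h : EmpP p w lam S')
    (hS : ∀ a b T k : ℤ, (a, b) ∈ S → (a, b + T) ∈ S → 0 ≤ k → k ≤ T → (a, k) ∈ S') :
    EmpP p w lam S := by
  obtain ⟨K, _, _, φ, hφ, hf⟩ := h
  refine ⟨HK K, inferInstance, inferInstance, fun i => (hat (φ i)).comp (Fl K),
    fun i => (hφ i).push, ?_⟩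
  intro f h1 h2
  by_contra hne
  -- shift to nonnegative rows
  obtain ⟨N, hN⟩ : ∃ N : ℕ, ∀ m ∈ f.coeff.support, 0 ≤ m.2 + (N : ℤ) := by
    refine ⟨∑ m ∈ f.coeff.support, m.2.natAbs, fun m hm => ?_⟩
    have : m.2.natAbs ≤ ∑ m ∈ f.coeff.support, m.2.natAbs :=
      Finset.single_le_sum (f := fun m : ℤ × ℤ => m.2.natAbs) (fun _ _ => Nat.zero_le _) hm
    omega
  set f' : Lau (HK K) := AddMonoidAlgebra.single (0, (N : ℤ)) 1 * f with hf'
  have hc : ∀ m : ℤ × ℤ, f'.coeff m = f.coeff (m.1, m.2 - N) := by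
    intro m
    rw [hf', AddMonoidAlgebra.coeff_single_mul_apply, one_mul]
    congr 1
    ext
    · simp
    · simp; ring
  have hrow : ∀ m ∈ f'.coeff.support, 0 ≤ m.2 := by
    intro m hm
    rw [Finsupp.mem_support_iff, hc] at hm
    have := hN _ (Finsupp.mem_support_iff.2 hm)
    simp only at this
    omega
  have hne' : f' ≠ 0 := by
    intro h3
    apply hne
    apply eq_zero_of_coeff
    intro m
    have h4 := hc (m.1, m.2 + N)
    rw [h3] at h4
    simp only [add_sub_cancel_right] at h4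
    exact h4.symm
  obtain ⟨a, ha1, ha2⟩ := Fl_lead hrow hne'
  apply ha1
  apply hf
  · rintro ⟨i, j⟩ hm
    obtain ⟨b, T, hb, hT, hj0, hjT⟩ := ha2 i j hm
    rw [hc] at hb hT
    refine hS i (b - N) T j (h1 _ hb) ?_ hj0 hjT
    have := h1 _ hT
    simp only at this
    convert this using 2
    ring
  · intro i
    exact transferP (φ i) (Fl K) (Ideal.mul_mem_left _ _ (h2 i)) a

end Pool.Agent.J6H44.UC
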