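import Pool.Agent.J6H44.UC.Prod

/-! The final step: rows. -/

set_option autoImplicit false

namespace Pool.Agent.J6H44.UC

open Finset Pool.Agent.TH716.CF Pool.Agent.TH603.EL Pool.Agent.TH98.CF

section ex

/-- the number of conditions at height `k` -/
def ex (w : ℕ) (lam : ℕ → ℕ) (k : ℕ) : ℕ := ∑ t ∈ Ico k w, lam t

theorem ex_anti (w : ℕ) (lam : ℕ → ℕ) : Antitone (ex w lam) := by
  intro a b h
  exact sum_le_sum_of_subset (Ico_subset_Ico_left h)

theorem ex_succ_le (w : ℕ) (lam : ℕ → ℕ) (k : ℕ) : ex (w + 1) lam k ≤ ex w lam k + lam w := by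
  unfold ex
  rcases Nat.lt_or_ge w k with h | h
  · rw [Ico_eq_empty (by omega)]
    simp
  · rw [sum_Ico_succ_top h]

theorem ex_shift {lam : ℕ → ℕ} (hl : Antitone lam) (w k : ℕ) :
    ex (w + 1) lam (k + 1) ≤ ex w lam k := by
  unfold ex
  rw [← sum_Ico_add' lam k w 1]
  exact sum_le_sum fun t _ => hl (Nat.le_succ t)

end ex

section fil
variable {A : Type*} [CommRing A]

/-- the coefficients of `X ^ j` with `j ≤ k` are divisible by `v ^ (e k)` -/
def FE (v : A) (e : ℕ → ℕ) : Ideal (PowerSeries A) where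
  carrier := {P | ∀ k, ∀ j ≤ k, v ^ (e k) ∣ PowerSeries.coeff j P}
  add_mem' := by
    intro P Q hP hQ k j hj
    rw [map_add]
    exact dvd_add (hP k j hj) (hQ k j hj)
  zero_mem' := by
    intro k j _
    rw [map_zero]
    exact dvd_zero _
  smul_mem' := by
    intro c P hP k j hj
    rw [smul_eq_mul, PowerSeries.coeff_mul]
    apply Finset.dvd_sum
    rintro ⟨i, l⟩ hil
    rw [Finset.HasAntidiagonal.mem_antidiagonal] at hil
    simp only at hil ⊢
    exact Dvd.dvd.mul_left (hP k l (by omega)) _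

theorem mem_FE {v : A} {e : ℕ → ℕ} {P : PowerSeries A} :
    P ∈ FE v e ↔ ∀ k, ∀ j ≤ k, v ^ (e k) ∣ PowerSeries.coeff j P := Iff.rfl

theorem FE_mul {v : A} {e e' e'' : ℕ → ℕ} (h : ∀ k i j, i + j ≤ k → e'' k ≤ e i + e' j) :
    FE v e * FE v e' ≤ FE v e'' := by
  rw [Ideal.mul_le]
  intro P hP Q hQ
  rw [mem_FE] at *
  intro k n hn
  rw [PowerSeries.coeff_mul]
  apply Finset.dvd_sum
  rintro ⟨i, j⟩ hij
  rw [Finset.HasAntidiagonal.mem_antidiagonal] at hij
  simp only at hij ⊢
  refine dvd_trans (pow_dvd_pow v (h k i j (by omega))) ?_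
  rw [pow_add]
  exact mul_dvd_mul (hP i i le_rfl) (hQ j j le_rfl)

end fil

theorem PsiP_le {K : Type} [Field K] {x : K} (hx : x ≠ 0) {φ : Lau K →+* PowerSeries K}
    (h0 : ∀ c, φ (AddMonoidAlgebra.single 0 c) = PowerSeries.C c)
    (h1 : φ (AddMonoidAlgebra.single (1, 0) 1) = PowerSeries.C x + PowerSeries.X)
    (h2 : φ (AddMonoidAlgebra.single (0, 1) 1) = 1) {lam : ℕ → ℕ} (hl : Antitone lam) (w : ℕ) :
    PJ φ w lam ≤ (FE (PowerSeries.X : PowerSeries K) (ex w lam)).comap (Psi x hx) := by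
  have hφ : φ = (PowerSeries.constantCoeff (R := PowerSeries K)).comp (Psi x hx) := by
    apply ringHom_ext2
    · intro c
      rw [h0, RingHom.comp_apply, Psi_single]
      simp
    · rw [h1, RingHom.comp_apply, Psi_single]
      simp [xU_val]
    · rw [h2, RingHom.comp_apply, Psi_single]
      simp [yU_val]
  have hle : ∀ r : ℕ, J φ r ≤ Ideal.comap (Psi x hx)
      (FE (PowerSeries.X : PowerSeries K) (fun k => if k = 0 then r else 0)) := by
    intro r g hg
    have hg' : φ g ∈ Ideal.span {(PowerSeries.X : PowerSeries K) ^ r} := hg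
    rw [Ideal.mem_span_singleton] at hg'
    rw [Ideal.mem_comap, mem_FE]
    intro k j hj
    rcases k with _ | k
    · obtain rfl : j = 0 := by omega
      rw [if_pos rfl]
      rw [hφ] at hg'
      simpa using hg'
    · rw [if_neg (by omega), pow_zero]
      exact one_dvd _
  induction w with
  | zero =>
    intro f _
    rw [Ideal.mem_comap, mem_FE]
    intro k j _
    have : ex 0 lam k = 0 := by unfold ex; simp
    rw [this, pow_zero]
    exact one_dvd _
  | succ w ih =>
    have h3 : PJ φ (w + 1) lam = PJ φ w lam * J φ (lam w) := by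
      unfold PJ
      rw [prod_range_succ]
    rw [h3]
    refine (Ideal.mul_mono ih (hle (lam w))).trans ((Ideal.le_comap_mul _).trans
      (Ideal.comap_mono (FE_mul ?_)))
    intro k i j hij
    rcases j with _ | j
    · rw [if_pos rfl]
      exact (ex_succ_le w lam k).trans (Nat.add_le_add_right (ex_anti w lam (by omega)) _)
    · rw [if_neg (by omega), add_zero]
      obtain ⟨k', rfl⟩ : ∃ k', k = k' + 1 := ⟨k - 1, by omega⟩
      exact (ex_shift hl w k').trans (ex_anti w lam (by omega))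

/-- the final step: if every row of `S` is shorter than the number of conditions on it, then there
is no nonzero Laurent polynomial -/
theorem final_rowsP {K : Type} [Field K] {ι : Type} [Fintype ι] {x : ι → K}
    (hinj : Function.Injective x) (hx : ∀ i, x i ≠ 0) {φ : ι → Lau K →+* PowerSeries K}
    (h0 : ∀ i c, φ i (AddMonoidAlgebra.single 0 c) = PowerSeries.C c)
    (h1 : ∀ i, φ i (AddMonoidAlgebra.single (1, 0) 1) = PowerSeries.C (x i) + PowerSeries.X)
    (h2 : ∀ i, φ i (AddMonoidAlgebra.single (0, 1) 1) = 1) {w : ι → ℕ} {lam : ι → ℕ → ℕ}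
    (hl : ∀ i, Antitone (lam i)) {S : Set (ℤ × ℤ)}
    (hS0 : ∀ m ∈ S, 0 ≤ m.2)
    (hrow : ∀ (k : ℕ), ∀ m ∈ S, ∀ m' ∈ S, (k : ℤ) ≤ m.2 → (k : ℤ) ≤ m'.2 →
      m'.1 - m.1 < ∑ i, ((ex (w i) (lam i) k : ℕ) : ℤ))
    {f : Lau K} (hfS : (↑f.coeff.support : Set (ℤ × ℤ)) ⊆ S)
    (hf : ∀ i, f ∈ PJ (φ i) (w i) (lam i)) : f = 0 := by
  classical
  by_contra hne
  -- the rows
  let row : ℕ → ℤ → K := fun k a => ∑ m ∈ f.coeff.support with m.1 = a,
    f.coeff m * (m.2.toNat.choose k : K)
  have hrow0 : ∃ k a, row k a ≠ 0 := by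
    have hfne : f.coeff ≠ 0 := fun h => hne (AddMonoidAlgebra.coeff_injective (by simpa using h))
    obtain ⟨m0, hm0⟩ := Finsupp.support_nonempty_iff.2 hfne
    obtain ⟨m1, hm1, hmax⟩ := Finset.exists_max_image
      (f.coeff.support.filter (fun m => m.1 = m0.1)) (fun m => m.2)
      ⟨m0, mem_filter.2 ⟨hm0, rfl⟩⟩
    rw [mem_filter] at hm1
    refine ⟨m1.2.toNat, m0.1, ?_⟩
    show (∑ m ∈ f.coeff.support with m.1 = m0.1, f.coeff m * (m.2.toNat.choose m1.2.toNat : K)) ≠ 0
    rw [sum_eq_single m1]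
    · rw [Nat.choose_self, Nat.cast_one, mul_one]
      exact Finsupp.mem_support_iff.1 hm1.1
    · intro m hm hmm
      have h3 := hmax m hm
      rw [mem_filter] at hm
      have h4 := hS0 m (hfS hm.1)
      have h5 := hS0 m1 (hfS hm1.1)
      have h6 : m.2 ≠ m1.2 := by
        intro h
        apply hmm
        ext
        · rw [hm.2, hm1.2]
        · exact h
      have h7 : m.2.toNat < m1.2.toNat := by omega
      rw [Nat.choose_eq_zero_of_lt h7]
      simp
    · intro h
      exact absurd (mem_filter.2 hm1) h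
  obtain ⟨k, a0, hka⟩ := hrow0
  -- the support of the row
  let A0 : Finset ℤ := (f.coeff.support.image Prod.fst).filter (fun a => row k a ≠ 0)
  have hA0 : ∀ a, row k a ≠ 0 → a ∈ A0 ∧ ∃ m ∈ f.coeff.support, m.1 = a ∧ (k : ℤ) ≤ m.2 := by
    intro a ha
    obtain ⟨m, hm, hm'⟩ := Finset.exists_ne_zero_of_sum_ne_zero ha
    rw [mem_filter] at hm
    refine ⟨mem_filter.2 ⟨mem_image.2 ⟨m, hm.1, hm.2⟩, ha⟩, m, hm.1, hm.2, ?_⟩
    by_contra hlt
    apply hm'
    have h5 := hS0 m (hfS hm.1)
    rw [Nat.choose_eq_zero_of_lt (by omega)]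
    simp
  have hne0 : A0.Nonempty := ⟨a0, (hA0 a0 hka).1⟩
  obtain ⟨a1, ha1, hmin⟩ := Finset.exists_min_image A0 (fun a => a) hne0
  obtain ⟨a2, ha2, hmax⟩ := Finset.exists_max_image A0 (fun a => a) hne0
  have hr1 : row k a1 ≠ 0 := (mem_filter.1 ha1).2
  have hr2 : row k a2 ≠ 0 := (mem_filter.1 ha2).2
  obtain ⟨m1, hm1, hm1a, hm1k⟩ := (hA0 a1 hr1).2
  obtain ⟨m2, hm2, hm2a, hm2k⟩ := (hA0 a2 hr2).2
  have hwid := hrow k m1 (hfS hm1) m2 (hfS hm2) hm1k hm2k
  rw [hm1a, hm2a] at hwid
  -- the polynomial of the row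
  let h : Polynomial K := ∑ a ∈ A0, Polynomial.monomial (a - a1).toNat (row k a)
  have hh0 : h ≠ 0 := by
    intro h3
    have h4 : h.coeff 0 = row k a1 := by
      show (∑ a ∈ A0, Polynomial.monomial (a - a1).toNat (row k a)).coeff 0 = row k a1
      rw [Polynomial.finsetSum_coeff, sum_eq_single a1]
      · simp
      · intro b hb hb1
        rw [Polynomial.coeff_monomial, if_neg]
        have := hmin b hb
        omega
      · intro h5; exact absurd ha1 h5
    rw [h3, Polynomial.coeff_zero] at h4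
    exact hr1 h4.symm
  have hdeg : (h.natDegree : ℤ) ≤ a2 - a1 := by
    have h3 : h.natDegree ≤ (a2 - a1).toNat := by
      apply Polynomial.natDegree_sum_le_of_forall_le
      intro a ha
      refine (Polynomial.natDegree_monomial_le _).trans ?_
      have := hmax a ha
      omega
    have := hmin a2 ha2
    omega
  have hdvd : ∀ i, (Polynomial.X - Polynomial.C (x i)) ^ (ex (w i) (lam i) k) ∣ h := by
    intro i
    have h3 : (PowerSeries.X : PowerSeries K) ^ (ex (w i) (lam i) k) ∣
        PowerSeries.coeff k (Psi (x i) (hx i) f) :=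
      (mem_FE.1 (PsiP_le (hx i) (h0 i) (h1 i) (h2 i) (hl i) (w i) (hf i))) k k le_rfl
    have h4 : PowerSeries.coeff k (Psi (x i) (hx i) f) =
        ∑ a ∈ A0, PowerSeries.C (row k a) *
          (((xU (x i) (hx i)) ^ a : (PowerSeries K)ˣ) : PowerSeries K) := by
      have h5 : f = ∑ m ∈ f.coeff.support, AddMonoidAlgebra.single m (f.coeff m) := by
        apply AddMonoidAlgebra.coeff_injective
        rw [AddMonoidAlgebra.coeff_sum]
        conv_lhs => rw [← Finsupp.sum_single f.coeff]
        rfl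
      conv_lhs => rw [h5, map_sum, map_sum]
      have h6 : ∀ m ∈ f.coeff.support, PowerSeries.coeff k
          (Psi (x i) (hx i) (AddMonoidAlgebra.single m (f.coeff m))) =
          PowerSeries.C (f.coeff m * (m.2.toNat.choose k : K)) *
            (((xU (x i) (hx i)) ^ m.1 : (PowerSeries K)ˣ) : PowerSeries K) := by
        intro m hm
        have h7 : m = (m.1, ((m.2.toNat : ℕ) : ℤ)) := by
          have := hS0 m (hfS hm)
          ext
          · rfl
          · simp only; omega
        conv_lhs => rw [h7]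
        rw [coeff_Psi_single]
        rw [← h7]
      rw [sum_congr rfl h6]
      have h8 : ∑ m ∈ f.coeff.support, PowerSeries.C (f.coeff m * (m.2.toNat.choose k : K)) *
            (((xU (x i) (hx i)) ^ m.1 : (PowerSeries K)ˣ) : PowerSeries K) =
          ∑ a ∈ f.coeff.support.image Prod.fst, PowerSeries.C (row k a) *
            (((xU (x i) (hx i)) ^ a : (PowerSeries K)ˣ) : PowerSeries K) := by
        rw [← sum_fiberwise_of_maps_to (g := Prod.fst) (t := f.coeff.support.image Prod.fst)
          (fun m hm => mem_image_of_mem _ hm)]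
        apply sum_congr rfl
        intro a _
        show _ = PowerSeries.C (∑ m ∈ f.coeff.support with m.1 = a,
          f.coeff m * (m.2.toNat.choose k : K)) * _
        rw [map_sum, sum_mul]
        apply sum_congr rfl
        intro m hm
        rw [(mem_filter.1 hm).2]
      rw [h8]
      symm
      apply sum_subset (filter_subset _ _)
      intro a ha hna
      have : row k a = 0 := by
        by_contra h9
        exact hna (mem_filter.2 ⟨ha, h9⟩)
      rw [this]; simp
    have h5 : PowerSeries.coeff k (Psi (x i) (hx i) f) =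
        (((xU (x i) (hx i)) ^ a1 : (PowerSeries K)ˣ) : PowerSeries K) *
          ((Polynomial.taylor (x i) h : Polynomial K) : PowerSeries K) := by
      rw [h4]
      have h6 : ((Polynomial.taylor (x i) h : Polynomial K) : PowerSeries K) =
          ∑ a ∈ A0, PowerSeries.C (row k a) *
            (((xU (x i) (hx i)) ^ (a - a1).toNat : (PowerSeries K)ˣ) : PowerSeries K) := by
        show ((Polynomial.taylor (x i) (∑ a ∈ A0, Polynomial.monomial (a - a1).toNat (row k a)) :
          Polynomial K) : PowerSeries K) = _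
        have h9 : ∀ (s : Finset ℤ) (g : ℤ → Polynomial K),
            ((∑ a ∈ s, g a : Polynomial K) : PowerSeries K) =
              ∑ a ∈ s, ((g a : Polynomial K) : PowerSeries K) := fun s g =>
          map_sum (Polynomial.coeToPowerSeries.ringHom (R := K)) g s
        rw [map_sum, h9]
        apply sum_congr rfl
        intro a _
        rw [Polynomial.taylor_monomial, Polynomial.coe_mul, Polynomial.coe_pow, Polynomial.coe_C,
          Polynomial.coe_add, Polynomial.coe_X, Polynomial.coe_C, Units.val_pow_eq_pow_val, xU_val,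
          add_comm PowerSeries.X]
      rw [h6, mul_sum]
      apply sum_congr rfl
      intro a ha
      have h7 := hmin a ha
      have h8 : (xU (x i) (hx i)) ^ a = (xU (x i) (hx i)) ^ a1 *
          (xU (x i) (hx i)) ^ (a - a1).toNat := by
        rw [← zpow_natCast, ← zpow_add]
        congr 1
        omega
      rw [h8, Units.val_mul]; ring
    rw [h5, (Units.isUnit _).dvd_mul_left] at h3
    have h6 : (Polynomial.X : Polynomial K) ^ (ex (w i) (lam i) k) ∣
        Polynomial.taylor (x i) h := by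
      rw [Polynomial.X_pow_dvd_iff]
      rw [PowerSeries.X_pow_dvd_iff] at h3
      intro d hd
      have := h3 d hd
      rwa [Polynomial.coeff_coe] at this
    obtain ⟨q, hq⟩ := h6
    refine ⟨Polynomial.taylor (-(x i)) q, ?_⟩
    have h7 : Polynomial.taylor (-(x i)) (Polynomial.taylor (x i) h) = h := by
      rw [Polynomial.taylor_taylor, neg_add_cancel, Polynomial.taylor_zero]
    rw [← h7, hq, Polynomial.taylor_mul, Polynomial.taylor_pow, Polynomial.taylor_X]
    rw [Polynomial.C_neg, ← sub_eq_add_neg]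
  have hprod : (∏ i, (Polynomial.X - Polynomial.C (x i)) ^ (ex (w i) (lam i) k)) ∣ h := by
    apply Finset.prod_dvd_of_coprime
    · intro i _ j _ hij
      exact (Polynomial.pairwise_coprime_X_sub_C hinj hij).pow
    · intro i _
      exact hdvd i
  have h3 := Polynomial.natDegree_le_of_dvd hprod hh0
  rw [Polynomial.natDegree_prod_of_monic _ _ (fun i _ => (Polynomial.monic_X_sub_C _).pow _)] at h3
  simp_rw [Polynomial.natDegree_pow, Polynomial.natDegree_X_sub_C, mul_one] at h3
  have h4 : ((∑ i, ex (w i) (lam i) k : ℕ) : ℤ) ≤ h.natDegree := by exact_mod_cast h3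
  push_cast [Nat.cast_sum] at h4
  push_cast at hwid
  linarith

/-- emptiness from rows which are shorter than the number of conditions -/
theorem EmpP_rows {p : ℕ} (hp : p = 0 ∨ p.Prime) {ι : Type} [Fintype ι] {w : ι → ℕ}
    {lam : ι → ℕ → ℕ} (hl : ∀ i, Antitone (lam i))
    {S : Set (ℤ × ℤ)} (hS0 : ∀ m ∈ S, 0 ≤ m.2)
    (hrow : ∀ (k : ℕ), ∀ m ∈ S, ∀ m' ∈ S, (k : ℤ) ≤ m.2 → (k : ℤ) ≤ m'.2 →
      m'.1 - m.1 < ∑ i, ((ex (w i) (lam i) k : ℕ) : ℤ)) : EmpP p w lam S := by
  classical
  obtain ⟨K, _, _, hK⟩ := exists_infinite hp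
  have hinf : ({0}ᶜ : Set K).Infinite := (Set.finite_singleton (0 : K)).infinite_compl
  let e : ℕ ↪ ({0}ᶜ : Set K) := hinf.natEmbedding
  let x : ι → K := fun i => (e (Fintype.equivFin ι i) : K)
  have hinj : Function.Injective x := by
    intro i j hij
    have h1 := e.injective (Subtype.ext hij)
    exact (Fintype.equivFin ι).injective (Fin.ext h1)
  have hx : ∀ i, x i ≠ 0 := fun i => (e (Fintype.equivFin ι i)).2
  refine ⟨K, inferInstance, inferInstance, fun i => gm (x i) (hx i),
    fun i => ⟨gm_const _ _, ?_⟩, ?_⟩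
  · rw [gm_x]
    simp
  · intro f hfS hf
    exact final_rowsP hinj hx (fun i => gm_const _ _) (fun i => gm_x _ _) (fun i => gm_y _ _) hl
      hS0 hrow (fun m hm => hfS m (Finsupp.mem_support_iff.1 hm)) hf

theorem EmpP_final {p : ℕ} (hp : p = 0 ∨ p.Prime) {ι : Type} [Fintype ι] {w : ι → ℕ}
    {lam : ι → ℕ → ℕ} (hl : ∀ i, Antitone (lam i)) {S : Set (ℤ × ℤ)} (A B : ℕ → ℤ)
    (hS : ∀ m ∈ S, 0 ≤ m.2 ∧ ∀ j : ℕ, (j : ℤ) ≤ m.2 → A j ≤ m.1 ∧ m.1 ≤ B j)
    (hw : ∀ j : ℕ, B j - A j < ∑ i, ((ex (w i) (lam i) j : ℕ) : ℤ)) : EmpP p w lam S := by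
  refine EmpP_rows hp hl (fun m hm => (hS m hm).1) fun k m hm m' hm' h1 h2 => ?_
  have h3 := (hS m hm).2 k h1
  have h4 := (hS m' hm').2 k h2
  have h5 := hw k
  linarith [h3.1, h4.2]

end Pool.Agent.J6H44.UC
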